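import Pool.Agent.H.MP_1d6ef7_nt.B

namespace Pool.Agent.Results.MP_1d6ef7_nt.Lower

open Polynomial Pool.Agent.H.MP_1d6ef7_nt

theorem result (S : Finset ℕ) (hS : ∀ p ∈ S, p.Prime ∧ Odd p) (hne : S.Nonempty) :
    2 * S.card - 1 ≤ (derivative (cyclotomic (∏ p ∈ S, p) ℝ)).roots.card ∧
    S.card ≤ ((derivative (cyclotomic (∏ p ∈ S, p) ℝ)).roots.filter
      (fun x : ℝ => -1 < x ∧ x < 0)).card ∧
    S.card - 1 ≤ ((derivative (cyclotomic (∏ p ∈ S, p) ℝ)).roots.filter
      (fun x : ℝ => 0 < x ∧ x < 1)).card := by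
  have hn : 2 < ∏ p ∈ S, p := by
    obtain ⟨p, hp⟩ := hne
    have h1 : p ≤ ∏ p ∈ S, p :=
      Nat.le_of_dvd (Finset.prod_pos fun q hq => (hS q hq).1.pos) (Finset.dvd_prod_of_mem _ hp)
    have h2 := (hS p hp).1.two_le
    obtain ⟨j, hj⟩ := (hS p hp).2
    omega
  obtain ⟨k1, z1⟩ := neg_ind S hS
  obtain ⟨k2, z2⟩ := (pos_ind S hS).resolve_left hne.ne_empty
  have a := main (Or.inr rfl) hn k1 z1
  have b := main (Or.inl rfl) hn k2 z2
  have a' : S.card ≤ ((derivative (cyclotomic (∏ p ∈ S, p) ℝ)).roots.filter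
      (fun x : ℝ => -1 < x ∧ x < 0)).card := by
    refine a.trans (Multiset.card_le_card ?_)
    convert Multiset.monotone_filter_right _ ?_
    intro x hx
    constructor <;> linarith [hx.1, hx.2]
  have b' : S.card - 1 ≤ ((derivative (cyclotomic (∏ p ∈ S, p) ℝ)).roots.filter
      (fun x : ℝ => 0 < x ∧ x < 1)).card := by
    refine b.trans (Multiset.card_le_card ?_)
    convert Multiset.monotone_filter_right _ ?_
    intro x hx
    constructor <;> linarith [hx.1, hx.2]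
  refine ⟨?_, a', b'⟩
  have c := congrArg Multiset.card (Multiset.filter_add_not (fun x : ℝ => -1 < x ∧ x < 0)
    (derivative (cyclotomic (∏ p ∈ S, p) ℝ)).roots)
  rw [Multiset.card_add] at c
  have d : ((derivative (cyclotomic (∏ p ∈ S, p) ℝ)).roots.filter
      (fun x : ℝ => 0 < x ∧ x < 1)).card ≤ ((derivative (cyclotomic (∏ p ∈ S, p) ℝ)).roots.filter
      (fun x : ℝ => ¬ (-1 < x ∧ x < 0))).card := by
    refine Multiset.card_le_card (Multiset.monotone_filter_right _ ?_)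
    intro x hx hy
    linarith [hx.1, hy.2]
  omega

end Pool.Agent.Results.MP_1d6ef7_nt.Lower
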